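import Mathlib

/-! A free subgroup of `SL(2, ℝ)` of rank continuum, generated by parabolic elements. -/

set_option autoImplicit false

namespace Pool.Agent.Y455.Cong

open Matrix UpperHalfPlane

/-- A parabolic matrix with fixed point `2 a`. -/
def par {R : Type*} [CommRing R] (a : R) : SpecialLinearGroup (Fin 2) R :=
  ⟨!![1 + 4 * a, -8 * a ^ 2; 2, 1 - 4 * a], by rw [det_fin_two_of]; ring⟩

lemma map_par {R S : Type*} [CommRing R] [CommRing S] (f : R →+* S) (a : R) :
    SpecialLinearGroup.map f (par a) = par (f a) := by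
  ext i j
  have h2 : f 2 = 2 := map_ofNat f 2
  have h4 : f 4 = 4 := map_ofNat f 4
  have h8 : f 8 = 8 := map_ofNat f 8
  fin_cases i <;> fin_cases j <;> simp [par, h2, h4, h8]

lemma coe_par_smul (a : ℝ) (z : ℍ) :
    ((par a • z : ℍ) : ℂ) = ((1 + 4 * a) * z - 8 * a ^ 2) / (2 * z + (1 - 4 * a)) := by
  rw [UpperHalfPlane.coe_specialLinearGroup_apply]
  simp [par]
  ring_nf

lemma coe_par_inv_smul (a : ℝ) (z : ℍ) :
    (((par a)⁻¹ • z : ℍ) : ℂ) = ((1 - 4 * a) * z + 8 * a ^ 2) / (-2 * z + (1 + 4 * a)) := by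
  rw [UpperHalfPlane.coe_specialLinearGroup_apply]
  simp [par]

lemma ne_real (z : ℍ) (x : ℝ) : (z : ℂ) ≠ x := by
  intro h
  have := z.im_pos
  have h2 := congrArg Complex.im h
  simp at h2
  linarith

theorem free_int : Function.Injective
    (FreeGroup.lift (fun k : ℤ => (par (k : ℝ) : SpecialLinearGroup (Fin 2) ℝ))) := by
  let X : ℤ → Set ℍ := fun k => {z | ‖2 * ((z : ℂ) - 2 * k) - 1‖ ≤ 1}
  let Y : ℤ → Set ℍ := fun k => {z | ‖2 * ((z : ℂ) - 2 * k) + 1‖ < 1}
  have key : ∀ (z : ℂ) (c d : ℝ), ‖2 * z - c‖ ≤ 1 → ‖2 * z - d‖ ≤ 1 → |c - d| ≤ 2 := by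
    intro z c d hc hd
    have h1 : ‖((c - d : ℝ) : ℂ)‖ ≤ ‖2 * z - d‖ + ‖2 * z - c‖ := by
      have : ((c - d : ℝ) : ℂ) = (2 * z - d) - (2 * z - c) := by push_cast; ring
      rw [this]
      exact norm_sub_le _ _
    rw [Complex.norm_real, Real.norm_eq_abs] at h1
    linarith
  have key2 : ∀ (z : ℂ) (c d : ℝ), ‖2 * z - c‖ ≤ 1 → ‖2 * z - d‖ < 1 → |c - d| < 2 := by
    intro z c d hc hd
    have h1 : ‖((c - d : ℝ) : ℂ)‖ ≤ ‖2 * z - d‖ + ‖2 * z - c‖ := by
      have : ((c - d : ℝ) : ℂ) = (2 * z - d) - (2 * z - c) := by push_cast; ring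
      rw [this]
      exact norm_sub_le _ _
    rw [Complex.norm_real, Real.norm_eq_abs] at h1
    linarith
  have hXe : ∀ (k : ℤ) (z : ℍ), z ∈ X k ↔ ‖2 * (z : ℂ) - ((4 * k + 1 : ℝ) : ℂ)‖ ≤ 1 := by
    intro k z
    simp only [X, Set.mem_ofPred_eq]
    have : 2 * ((z : ℂ) - 2 * k) - 1 = 2 * (z : ℂ) - ((4 * k + 1 : ℝ) : ℂ) := by
      push_cast; ring
    rw [this]
  have hYe : ∀ (k : ℤ) (z : ℍ), z ∈ Y k ↔ ‖2 * (z : ℂ) - ((4 * k - 1 : ℝ) : ℂ)‖ < 1 := by
    intro k z
    simp only [Y, Set.mem_ofPred_eq]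
    have : 2 * ((z : ℂ) - 2 * k) + 1 = 2 * (z : ℂ) - ((4 * k - 1 : ℝ) : ℂ) := by
      push_cast; ring
    rw [this]
  refine FreeGroup.injective_lift_of_ping_pong (α := ℍ) _ X Y ?_ ?_ ?_ ?_ ?_ ?_
  · intro k
    refine ⟨⟨(2 * k + 1 / 2 : ℝ) + (1 / 2 : ℝ) * Complex.I, by simp⟩, ?_⟩
    rw [hXe]
    have : 2 * ((2 * k + 1 / 2 : ℝ) + (1 / 2 : ℝ) * Complex.I) - ((4 * k + 1 : ℝ) : ℂ) =
        Complex.I := by push_cast; ring
    rw [UpperHalfPlane.coe_mk, this]
    simp
  · intro k l hkl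
    rw [Function.onFun, Set.disjoint_left]
    intro z hz hz'
    rw [hXe] at hz hz'
    have h := key _ _ _ hz hz'
    apply hkl
    have h2 : |(k : ℝ) - l| < 1 := by
      have : (4 * k + 1 - (4 * l + 1) : ℝ) = 4 * (k - l) := by ring
      rw [this, abs_mul] at h
      norm_num at h
      linarith
    have h3 : |k - l| < 1 := by exact_mod_cast h2
    rw [Int.abs_lt_one_iff] at h3
    omega
  · intro k l hkl
    rw [Function.onFun, Set.disjoint_left]
    intro z hz hz'
    rw [hYe] at hz hz'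
    have h := key _ _ _ hz.le hz'.le
    apply hkl
    have h2 : |(k : ℝ) - l| < 1 := by
      have : (4 * k - 1 - (4 * l - 1) : ℝ) = 4 * (k - l) := by ring
      rw [this, abs_mul] at h
      norm_num at h
      linarith
    have h3 : |k - l| < 1 := by exact_mod_cast h2
    rw [Int.abs_lt_one_iff] at h3
    omega
  · intro k l
    rw [Set.disjoint_left]
    intro z hz hz'
    rw [hXe] at hz
    rw [hYe] at hz'
    have h := key2 _ _ _ hz hz'
    have h2 : |4 * k + 1 - (4 * l - 1)| < 2 := by exact_mod_cast h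
    rw [abs_lt] at h2
    omega
  · intro k
    rintro _ ⟨z, hz, rfl⟩
    rw [Set.mem_compl_iff] at hz
    simp only [Y, X, Set.mem_ofPred_eq, not_lt] at hz ⊢
    have hden : (2 * ((z : ℂ) - 2 * k) + 1) ≠ 0 := by
      intro h
      rw [h] at hz
      simp at hz
      linarith
    have h1 : ((par (k : ℝ) • z : ℍ) : ℂ) =
        2 * k + ((z : ℂ) - 2 * k) / (2 * ((z : ℂ) - 2 * k) + 1) := by
      rw [coe_par_smul]
      have hd2 : (2 * (z : ℂ) + (1 - 4 * ((k : ℝ) : ℂ))) = 2 * ((z : ℂ) - 2 * k) + 1 := by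
        push_cast; ring
      rw [hd2]
      field_simp
      push_cast
      ring
    change ‖2 * (((par (k : ℝ) • z : ℍ) : ℂ) - 2 * k) - 1‖ ≤ 1
    rw [h1]
    have h2 : 2 * (2 * (k : ℂ) + ((z : ℂ) - 2 * k) / (2 * ((z : ℂ) - 2 * k) + 1) - 2 * k) - 1 =
        -(1 / (2 * ((z : ℂ) - 2 * k) + 1)) := by
      field_simp
      ring
    rw [h2, norm_neg, norm_div, norm_one]
    rw [div_le_one (lt_of_lt_of_le one_pos hz)]
    exact hz
  · intro k
    rintro _ ⟨z, hz, rfl⟩
    rw [Set.mem_compl_iff] at hz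
    simp only [Y, X, Set.mem_ofPred_eq, not_le] at hz ⊢
    have hnorm : ‖1 - 2 * ((z : ℂ) - 2 * k)‖ = ‖2 * ((z : ℂ) - 2 * k) - 1‖ := norm_sub_rev _ _
    have hden : (1 - 2 * ((z : ℂ) - 2 * k)) ≠ 0 := by
      intro h
      rw [h] at hnorm
      rw [← hnorm] at hz
      simp at hz
      linarith
    have h1 : (((par (k : ℝ))⁻¹ • z : ℍ) : ℂ) =
        2 * k + ((z : ℂ) - 2 * k) / (1 - 2 * ((z : ℂ) - 2 * k)) := by
      rw [coe_par_inv_smul]
      have hd2 : (-2 * (z : ℂ) + (1 + 4 * ((k : ℝ) : ℂ))) = 1 - 2 * ((z : ℂ) - 2 * k) := by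
        push_cast; ring
      rw [hd2]
      field_simp
      push_cast
      ring
    change ‖2 * ((((par (k : ℝ))⁻¹ • z : ℍ) : ℂ) - 2 * k) + 1‖ < 1
    rw [h1]
    have h2 : 2 * (2 * (k : ℂ) + ((z : ℂ) - 2 * k) / (1 - 2 * ((z : ℂ) - 2 * k)) - 2 * k) + 1 =
        1 / (1 - 2 * ((z : ℂ) - 2 * k)) := by
      field_simp
      ring
    rw [h2, norm_div, norm_one, hnorm]
    rw [div_lt_one (lt_trans one_pos hz)]
    exact hz

lemma map_ne_one {α β : Type*} (n : α → β) (w : FreeGroup α) [DecidableEq α] (hw : w ≠ 1)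
    (hn : ∀ a b, a ∈ w.toWord.map Prod.fst → b ∈ w.toWord.map Prod.fst → n a = n b → a = b) :
    FreeGroup.map n w ≠ 1 := by
  classical
  intro h
  have h1 : FreeGroup.map n w = FreeGroup.mk (w.toWord.map (fun p => (n p.1, p.2))) := by
    conv_lhs => rw [← FreeGroup.mk_toWord (x := w)]
    rw [FreeGroup.map.mk]
  have hr : FreeGroup.IsReduced (w.toWord.map (fun p => (n p.1, p.2))) := by
    have h2 : FreeGroup.IsReduced w.toWord := FreeGroup.isReduced_toWord
    unfold FreeGroup.IsReduced at h2 ⊢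
    rw [List.isChain_map]
    rw [List.isChain_iff_getElem] at h2 ⊢
    intro i hi hnn
    apply h2 i hi
    apply hn _ _ _ _ hnn
    · exact List.mem_map_of_mem (List.getElem_mem _)
    · exact List.mem_map_of_mem (List.getElem_mem _)
  have h3 : (FreeGroup.map n w).toWord = [] := by rw [h, FreeGroup.toWord_one]
  rw [h1, FreeGroup.toWord_mk, hr.reduce_eq, List.map_eq_nil_iff, FreeGroup.toWord_eq_nil_iff] at h3
  exact hw h3

/-- The generic matrices are free. -/
theorem free_generic (α : Type) : Function.Injective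
    (FreeGroup.lift (fun s : α =>
      (par (MvPolynomial.X s) : SpecialLinearGroup (Fin 2) (MvPolynomial α ℚ)))) := by
  classical
  rw [injective_iff_map_eq_one]
  intro w hw
  by_contra hne
  let n : α → ℤ := fun s => ((w.toWord.map Prod.fst).idxOf s : ℤ)
  have hn : ∀ a b, a ∈ w.toWord.map Prod.fst → b ∈ w.toWord.map Prod.fst → n a = n b → a = b := by
    intro a b ha hb h
    have h' : (w.toWord.map Prod.fst).idxOf a = (w.toWord.map Prod.fst).idxOf b := by
      simp only [n] at h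
      exact_mod_cast h
    exact (List.idxOf_inj ha).mp h'
  apply map_ne_one n w hne hn
  apply free_int
  rw [map_one]
  let e : MvPolynomial α ℚ →+* ℝ := (MvPolynomial.aeval (fun s => (n s : ℝ))).toRingHom
  have h1 : (FreeGroup.lift (fun k : ℤ => (par (k : ℝ) : SpecialLinearGroup (Fin 2) ℝ))).comp
      (FreeGroup.map n) = (SpecialLinearGroup.map e).comp
      (FreeGroup.lift (fun s : α =>
        (par (MvPolynomial.X s) : SpecialLinearGroup (Fin 2) (MvPolynomial α ℚ)))) := by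
    ext1 s
    simp only [MonoidHom.comp_apply, FreeGroup.map.of, FreeGroup.lift_apply_of, map_par]
    simp [e]
  have h2 := DFunLike.congr_fun h1 w
  rw [MonoidHom.comp_apply, MonoidHom.comp_apply, hw, map_one] at h2
  exact h2

lemma map_injective {R S : Type*} [CommRing R] [CommRing S] (f : R →+* S)
    (hf : Function.Injective f) :
    Function.Injective (SpecialLinearGroup.map (n := Fin 2) f) := by
  intro A B h
  ext i j
  have := congrArg (fun M : SpecialLinearGroup (Fin 2) S => M i j) h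
  exact hf (by simpa using this)

open Cardinal in
theorem exists_algebraicIndependent (α : Type) (hα : #α ≤ 𝔠) :
    ∃ r : α → ℝ, AlgebraicIndependent ℚ r := by
  obtain ⟨s, hs⟩ := exists_isTranscendenceBasis ℚ ℝ
  have hcard : 𝔠 ≤ #s := by
    by_contra hlt
    push Not at hlt
    have h1 : #ℝ ≤ max #(Algebra.adjoin ℚ (Set.range (Subtype.val : s → ℝ))) ℵ₀ := by
      have := hs.isAlgebraic
      exact Algebra.IsAlgebraic.cardinalMk_le_max _ _
    have h2 : #(Algebra.adjoin ℚ (Set.range (Subtype.val : s → ℝ))) = #(MvPolynomial s ℚ) :=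
      (Cardinal.mk_congr hs.1.aevalEquiv.toEquiv).symm
    have h3 : #(MvPolynomial s ℚ) ≤ max (max #ℚ #s) ℵ₀ := MvPolynomial.cardinalMk_le_max
    rw [Cardinal.mk_real, h2] at h1
    have h4 : max (max #ℚ #s) ℵ₀ < 𝔠 := by
      rw [Cardinal.mkRat]
      exact max_lt (max_lt Cardinal.aleph0_lt_continuum hlt) Cardinal.aleph0_lt_continuum
    have h5 := h1.trans (max_le_max h3 le_rfl)
    have h6 : max (max (max #ℚ #s) ℵ₀) ℵ₀ < 𝔠 := max_lt h4 Cardinal.aleph0_lt_continuum
    exact absurd h5 (not_le.mpr h6)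
  have hle : #α ≤ #s := hα.trans hcard
  rw [Cardinal.le_def] at hle
  obtain ⟨f⟩ := hle
  exact ⟨fun a => (f a : ℝ), hs.1.comp f f.injective⟩

open Cardinal in
theorem exists_free (α : Type) (hα : #α ≤ 𝔠) :
    ∃ φ : FreeGroup α →* SpecialLinearGroup (Fin 2) ℝ, Function.Injective φ ∧
      ∀ a, ∃ r : ℝ, φ (FreeGroup.of a) = par r := by
  obtain ⟨r, hr⟩ := exists_algebraicIndependent α hα
  refine ⟨(SpecialLinearGroup.map (MvPolynomial.aeval r).toRingHom).comp
      (FreeGroup.lift (fun s : α =>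
        (par (MvPolynomial.X s) : SpecialLinearGroup (Fin 2) (MvPolynomial α ℚ)))), ?_, ?_⟩
  · rw [MonoidHom.coe_comp]
    exact (map_injective _ hr).comp (free_generic α)
  · intro a
    refine ⟨r a, ?_⟩
    simp only [MonoidHom.comp_apply, FreeGroup.lift_apply_of, map_par]
    simp

lemma par_pow (a : ℝ) (n : ℕ) : ((par a) ^ n).val =
    !![1 + 4 * n * a, -8 * n * a ^ 2; 2 * n, 1 - 4 * n * a] := by
  induction n with
  | zero => ext i j; fin_cases i <;> fin_cases j <;> simp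
  | succ n ih =>
    rw [pow_succ]
    change ((par a) ^ n).val * (par a).val = _
    rw [ih]
    ext i j
    fin_cases i <;> fin_cases j <;> simp [par, Matrix.mul_apply, Fin.sum_univ_two] <;> ring

lemma par_pow_smul_ne (a : ℝ) (n : ℕ) (z : ℍ) : (par a) ^ (n + 1) • z ≠ z := by
  intro h
  have h1 : ((_ : ℍ) : ℂ) = (z : ℂ) := congrArg (fun w : ℍ => (w : ℂ)) h
  rw [UpperHalfPlane.coe_specialLinearGroup_apply] at h1
  have e : ∀ i j, ((par a) ^ (n + 1)) i j =
    (!![1 + 4 * ((n + 1 : ℕ) : ℝ) * a, -8 * ((n + 1 : ℕ) : ℝ) * a ^ 2; 2 * ((n + 1 : ℕ) : ℝ),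
      1 - 4 * ((n + 1 : ℕ) : ℝ) * a]) i j := by
    intro i j
    rw [← par_pow]
  rw [e, e, e, e] at h1
  simp only [Matrix.of_apply, Matrix.cons_val', Matrix.cons_val_zero, Matrix.cons_val_one,
    Matrix.cons_val_fin_one, Algebra.algebraMap_self, RingHom.id_apply] at h1
  set N : ℝ := ((n + 1 : ℕ) : ℝ) with hN
  have hNpos : (0 : ℝ) < N := by rw [hN]; positivity
  have hden : (((2 * N : ℝ) : ℂ) * z + ((1 - 4 * N * a : ℝ) : ℂ)) ≠ 0 := by
    intro h0
    have h2 := congrArg Complex.im h0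
    simp at h2
    rcases h2 with h2 | h2
    · linarith
    · exact absurd h2 z.im_pos.ne'
  rw [div_eq_iff hden] at h1
  have h3 : (2 * (N : ℂ)) * ((z : ℂ) - ((2 * a : ℝ) : ℂ)) ^ 2 = 0 := by
    push_cast at h1 ⊢
    linear_combination (-1 : ℂ) * h1
  have h4 : (2 * (N : ℂ)) ≠ 0 := by
    have : (N : ℂ) ≠ 0 := by exact_mod_cast hNpos.ne'
    exact mul_ne_zero two_ne_zero this
  have h5 := (mul_eq_zero.mp h3).resolve_left h4
  have h6 : (z : ℂ) - ((2 * a : ℝ) : ℂ) = 0 := by simpa using h5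
  exact ne_real z (2 * a) (sub_eq_zero.mp h6)

lemma fix_eqs (g : SpecialLinearGroup (Fin 2) ℝ) (z : ℍ) (h : g • z = z) :
    g 0 0 = 2 * g 1 0 * z.re + g 1 1 ∧ g 0 1 = -(g 1 0) * (z.re ^ 2 + z.im ^ 2) := by
  have h1 : ((_ : ℍ) : ℂ) = (z : ℂ) := congrArg (fun w : ℍ => (w : ℂ)) h
  rw [UpperHalfPlane.coe_specialLinearGroup_apply] at h1
  simp only [Algebra.algebraMap_self, RingHom.id_apply] at h1
  have hden : ((g 1 0 : ℂ) * z + (g 1 1 : ℂ)) ≠ 0 := by
    intro h0
    have h2 := congrArg Complex.im h0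
    have h3 := congrArg Complex.re h0
    simp only [Complex.add_im, Complex.mul_im, Complex.ofReal_re, Complex.ofReal_im, zero_mul,
      add_zero, Complex.zero_im, Complex.add_re, Complex.mul_re, Complex.zero_re, sub_zero] at h2 h3
    have h4 : g 1 0 = 0 := by
      rcases mul_eq_zero.mp h2 with h2 | h2
      · exact h2
      · exact absurd h2 z.im_pos.ne'
    rw [h4] at h3
    have h5 : g 1 1 = 0 := by simpa using h3
    have h6 := g.det_coe
    rw [Matrix.det_fin_two] at h6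
    rw [h4, h5] at h6
    norm_num at h6
  rw [div_eq_iff hden] at h1
  have h2 := congrArg Complex.im h1
  have h3 := congrArg Complex.re h1
  simp only [Complex.add_im, Complex.mul_im, Complex.ofReal_re, Complex.ofReal_im, zero_mul,
      add_zero, Complex.add_re, Complex.mul_re, sub_zero, UpperHalfPlane.coe_re,
      UpperHalfPlane.coe_im] at h2 h3
  have hy := z.im_pos
  have e1 : g 0 0 = 2 * g 1 0 * z.re + g 1 1 := by
    have : z.im * (g 0 0 - (2 * g 1 0 * z.re + g 1 1)) = 0 := by linear_combination h2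
    rcases mul_eq_zero.mp this with h | h
    · exact absurd h hy.ne'
    · linarith
  refine ⟨e1, ?_⟩
  rw [e1] at h3
  linear_combination h3

lemma stab_comm (g h : SpecialLinearGroup (Fin 2) ℝ) (z : ℍ) (hg : g • z = z) (hh : h • z = z) :
    g * h = h * g := by
  obtain ⟨g1, g2⟩ := fix_eqs g z hg
  obtain ⟨h1, h2⟩ := fix_eqs h z hh
  apply Subtype.ext
  change g.val * h.val = h.val * g.val
  ext i j
  fin_cases i <;> fin_cases j <;>
    simp only [Matrix.mul_apply, Fin.sum_univ_two, Fin.zero_eta, Fin.mk_one, Fin.isValue, g1, g2, h1, h2] <;>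
    ring

end Pool.Agent.Y455.Cong
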