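import Pool.Agent.Y455.Cong.Solve
import Pool.Agent.Y455.Cong.Free

/-! Every proper system of at most continuum many congruences is solvable in the hyperbolic
plane. -/

set_option autoImplicit false

namespace Pool.Agent.Y455.Cong

open Matrix UpperHalfPlane Cardinal

/-- A system of congruences is solvable for an action of a group `G` if `G` contains the image of
a free group on enough generators. -/
theorem solvable_of_free {I M G X : Type} [Group G] [MulAction G X]
    (L R : M → Set I) (hI : Nonempty I)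
    (hLR : ∀ i, (L i).Nonempty ∧ L i ≠ Set.univ ∧ (R i).Nonempty ∧ R i ≠ Set.univ)
    (hfree : ∀ α : Type, #α ≤ #M + #M + 1 → ∀ a0 : α, ∃ φ : FreeGroup α →* G,
      (∀ (y : X) (g h : FreeGroup α), φ g • y = y → φ h • y = y → g * h = h * g) ∧
      (∀ (x : X) (n : ℕ), (φ (FreeGroup.of a0)) ^ (n + 1) • x ≠ x)) :
    ∃ A : I → Set X,
        Pairwise (fun j k => Disjoint (A j) (A k)) ∧
        (⋃ j, A j) = Set.univ ∧
        ∀ i, ∃ g : G, (fun x => g • x) '' (⋃ j ∈ L i, A j) = ⋃ j ∈ R i, A j := by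
  classical
  obtain ⟨i0⟩ := hI
  let nm : Set I → Set I := fun S => if i0 ∈ S then Sᶜ else S
  have nm0 : ∀ S, i0 ∉ nm S := by
    intro S
    simp only [nm]
    split_ifs with h
    · simpa using h
    · exact h
  have nmne : ∀ S : Set I, S.Nonempty → S ≠ Set.univ → (nm S).Nonempty := by
    intro S h1 h2
    simp only [nm]
    split_ifs with h
    · exact Set.nonempty_compl.mpr h2
    · exact h1
  have nmmem : ∀ (S : Set I) (j : I), j ∈ S ↔ (if i0 ∈ S then j ∉ nm S else j ∈ nm S) := by
    intro S j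
    simp only [nm]
    split_ifs with h
    · simp
    · rfl
  let V : Type := {S : Set I // ∃ i, S = nm (L i) ∨ S = nm (R i)}
  have hV : #V ≤ #M + #M := by
    have hsurj : Function.Surjective (fun m : M ⊕ M => (match m with
      | Sum.inl i => ⟨nm (L i), i, Or.inl rfl⟩
      | Sum.inr i => ⟨nm (R i), i, Or.inr rfl⟩ : V)) := by
      rintro ⟨S, i, h | h⟩
      · exact ⟨Sum.inl i, Subtype.ext h.symm⟩
      · exact ⟨Sum.inr i, Subtype.ext h.symm⟩
    have := Cardinal.mk_le_of_surjective hsurj
    simpa using this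
  obtain ⟨φ, hφ1, hφ2⟩ := hfree (Option V) (by
    rw [Cardinal.mk_option]
    exact add_le_add_left hV 1) none
  letI : MulAction (FreeGroup (Option V)) X := MulAction.compHom X φ
  have hsm : ∀ (g : FreeGroup (Option V)) (x : X), g • x = φ g • x := fun _ _ => rfl
  obtain ⟨j, B, hj, hB⟩ := solve (V := V) (I := I) (X := X) (fun v => v.1) i0
    (by rintro ⟨S, i, h | h⟩
        · simpa [h] using nm0 (L i)
        · simpa [h] using nm0 (R i))
    (by rintro ⟨S, i, h | h⟩
        · simpa [h] using nmne (L i) (hLR i).1 (hLR i).2.1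
        · simpa [h] using nmne (R i) (hLR i).2.2.1 (hLR i).2.2.2)
    (fun v v' h => Subtype.ext h)
    (fun y g h hg hh => hφ1 y g h hg hh)
    (fun x n => by rw [hsm, map_pow]; exact hφ2 x n)
  refine ⟨fun i => {x | j x = i}, ?_, ?_, ?_⟩
  · intro a b hab
    rw [Set.disjoint_left]
    intro x hx hx'
    exact hab (hx.symm.trans hx')
  · ext x
    simp
  · intro i
    let v : V := ⟨nm (L i), i, Or.inl rfl⟩
    let v' : V := ⟨nm (R i), i, Or.inr rfl⟩
    let tw : FreeGroup (Option V) := if (i0 ∈ L i ↔ i0 ∈ R i) then 1 else TT V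
    let g : FreeGroup (Option V) := hh v' * tw * (hh v)⁻¹
    have hkey : ∀ x, j x ∈ L i ↔ j (g • x) ∈ R i := by
      intro x
      have h1 := hj v ((hh v)⁻¹ • x)
      rw [smul_inv_smul] at h1
      have h2 := hj v' (tw • (hh v)⁻¹ • x)
      have h3 : hh v' • tw • (hh v)⁻¹ • x = g • x := by
        simp only [g, mul_smul]
      rw [h3] at h2
      rw [nmmem (L i), nmmem (R i)]
      change (j x ∈ nm (L i) ↔ _) at h1
      change (j (g • x) ∈ nm (R i) ↔ _) at h2
      rw [h1, h2]
      by_cases hL : i0 ∈ L i <;> by_cases hR : i0 ∈ R i <;> simp [tw, hL, hR, hB]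
    refine ⟨φ g, ?_⟩
    ext y
    simp only [Set.mem_image, Set.mem_iUnion, Set.mem_ofPred_eq, exists_prop, exists_eq_right']
    constructor
    · rintro ⟨x, hx, rfl⟩
      exact (hkey x).mp hx
    · intro hy
      refine ⟨g⁻¹ • y, ?_, ?_⟩
      · rw [hkey, smul_inv_smul]
        exact hy
      · rw [hsm, map_inv, smul_inv_smul]

theorem main : ∀ (I M : Type) (L R : M → Set I),
      Nonempty I →
      Cardinal.mk I ≤ Cardinal.continuum →
      Cardinal.mk M ≤ Cardinal.continuum →
      (∀ i, (L i).Nonempty ∧ L i ≠ Set.univ ∧ (R i).Nonempty ∧ R i ≠ Set.univ) →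
      ∃ A : I → Set UpperHalfPlane,
        Pairwise (fun j k => Disjoint (A j) (A k)) ∧
        (⋃ j, A j) = Set.univ ∧
        ∀ i, ∃ g : IsometryEquiv UpperHalfPlane UpperHalfPlane,
          g '' (⋃ j ∈ L i, A j) = ⋃ j ∈ R i, A j := by
  intro I M L R hI _ hM hLR
  obtain ⟨A, h1, h2, h3⟩ := solvable_of_free (G := SpecialLinearGroup (Fin 2) ℝ) (X := ℍ)
    L R hI hLR (by
      intro α hα a0
      have hα' : #α ≤ 𝔠 := by
        refine hα.trans ?_
        refine (add_le_add (add_le_add hM hM) (Cardinal.one_le_aleph0.trans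
          Cardinal.aleph0_le_continuum)).trans ?_
        simp
      obtain ⟨φ, hφ, hφ2⟩ := exists_free α hα'
      refine ⟨φ, ?_, ?_⟩
      · intro y g h hg hh
        apply hφ
        rw [map_mul, map_mul]
        exact stab_comm _ _ y hg hh
      · intro x n
        obtain ⟨r, hr⟩ := hφ2 a0
        rw [hr]
        exact par_pow_smul_ne r n x)
  refine ⟨A, h1, h2, fun i => ?_⟩
  obtain ⟨g, hg⟩ := h3 i
  exact ⟨IsometryEquiv.constSMul g, hg⟩

end Pool.Agent.Y455.Cong
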