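import Mathlib

/-! Colourings of acyclic functional graphs, by compactness. -/

set_option autoImplicit false

namespace Pool.Agent.Y455.Cong

variable {V : Type*}

/-- The iteration map of a partially defined self-map. -/
def step (q : V → Option V) (o : Option V) : Option V := o.bind q

@[simp] lemma step_none (q : V → Option V) : step q none = none := rfl
@[simp] lemma step_some (q : V → Option V) (v : V) : step q (some v) = q v := rfl

lemma step_iterate_none (q : V → Option V) (n : ℕ) : (step q)^[n] none = none := by
  induction n with
  | zero => rfl
  | succ n ih => rw [Function.iterate_succ_apply, step_none, ih]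

lemma exists_not_parent (q : V → Option V)
    (hq : ∀ v n, (step q)^[n + 1] (some v) ≠ some v) (T : Finset V) (hT : T.Nonempty) :
    ∃ v ∈ T, ∀ u ∈ T, q u ≠ some v := by
  classical
  by_contra hcon
  push Not at hcon
  have hcon' : ∀ v : {x // x ∈ T}, ∃ u : {x // x ∈ T}, q u.1 = some v.1 := by
    rintro ⟨v, hv⟩
    obtain ⟨u, hu, huv⟩ := hcon v hv
    exact ⟨⟨u, hu⟩, huv⟩
  choose f hf using hcon'
  obtain ⟨v0, hv0⟩ := hT
  let g : ℕ → {x // x ∈ T} := fun n => f^[n] ⟨v0, hv0⟩
  have hback : ∀ (k : ℕ) (x : {x // x ∈ T}), (step q)^[k] (some (f^[k] x).1) = some x.1 := by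
    intro k
    induction k with
    | zero => intro x; rfl
    | succ k ih =>
      intro x
      rw [Function.iterate_succ_apply, Function.iterate_succ_apply', step_some, hf]
      exact ih x
  obtain ⟨m, n, hmn, hg⟩ := Finite.exists_ne_map_eq_of_infinite g
  wlog hlt : m < n generalizing m n
  · exact this n m hmn.symm hg.symm (by omega)
  obtain ⟨k, rfl⟩ : ∃ k, n = m + (k + 1) := ⟨n - m - 1, by omega⟩
  have h1 : g (m + (k + 1)) = f^[k + 1] (g m) := by
    simp only [g]
    rw [add_comm, Function.iterate_add_apply]
  have h2 : f^[k + 1] (g m) = g m := by rw [← h1, ← hg]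
  have h3 := hback (k + 1) (g m)
  rw [h2] at h3
  exact hq _ _ h3

/-- Every acyclic functional system of Boolean equations has a solution. -/
theorem exists_coloring (q : V → Option V)
    (hq : ∀ v n, (step q)^[n + 1] (some v) ≠ some v)
    (G : V → Bool → Bool) (c : V → Bool) :
    ∃ B : V → Bool, ∀ v, (q v = none → B v = c v) ∧ (∀ u, q v = some u → B v = G v (B u)) := by
  classical
  let C : V → Set (V → Bool) := fun v =>
    {B | (q v = none → B v = c v) ∧ (∀ u, q v = some u → B v = G v (B u))}
  have hclosed : ∀ v, IsClosed (C v) := by
    intro v
    have h1 : IsClosed {B : V → Bool | q v = none → B v = c v} := by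
      by_cases h : q v = none
      · simp only [h, true_imp_iff]
        exact isClosed_eq (continuous_apply v) continuous_const
      · simp [h]
    have h2 : IsClosed {B : V → Bool | ∀ u, q v = some u → B v = G v (B u)} := by
      have : {B : V → Bool | ∀ u, q v = some u → B v = G v (B u)} =
          ⋂ u, {B : V → Bool | q v = some u → B v = G v (B u)} := by
        ext B; simp
      rw [this]
      refine isClosed_iInter fun u => ?_
      by_cases h : q v = some u
      · simp only [h, true_imp_iff]
        refine isClosed_eq (continuous_apply v) ?_
        exact (continuous_of_discreteTopology (f := G v)).comp (continuous_apply u)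
      · simp [h]
    exact h1.inter h2
  have hfin : ∀ (n : ℕ) (T : Finset V), T.card = n → ∃ B, ∀ v ∈ T, B ∈ C v := by
    intro n
    induction n with
    | zero =>
      intro T hT
      rw [Finset.card_eq_zero] at hT
      subst hT
      exact ⟨fun _ => true, by simp⟩
    | succ n ih =>
      intro T hT
      obtain ⟨v, hv, hpar⟩ := exists_not_parent q hq T (Finset.card_pos.mp (by omega))
      obtain ⟨B, hB⟩ := ih (T.erase v) (by rw [Finset.card_erase_of_mem hv]; omega)
      have hqv : q v ≠ some v := by
        intro h
        exact hq v 0 (by simpa using h)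
      refine ⟨Function.update B v (match q v with | none => c v | some u => G v (B u)), ?_⟩
      intro w hw
      by_cases hwv : w = v
      · subst hwv
        constructor
        · intro h
          simp [h]
        · intro u hu
          have huw : u ≠ w := fun h => hqv (h ▸ hu)
          simp [hu, Function.update_of_ne huw]
      · have h1 := hB w (Finset.mem_erase.mpr ⟨hwv, hw⟩)
        constructor
        · intro h
          rw [Function.update_of_ne hwv]
          exact h1.1 h
        · intro u hu
          have huv : u ≠ v := fun h => hpar w hw (h ▸ hu)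
          rw [Function.update_of_ne hwv, Function.update_of_ne huv]
          exact h1.2 u hu
  have hne : (Set.univ ∩ ⋂ v, C v).Nonempty := by
    refine IsCompact.inter_iInter_nonempty isCompact_univ C hclosed ?_
    intro T
    obtain ⟨B, hB⟩ := hfin _ T rfl
    exact ⟨B, Set.mem_univ _, by simpa using hB⟩
  obtain ⟨B, -, hB⟩ := hne
  exact ⟨B, fun v => Set.mem_iInter.mp hB v⟩

end Pool.Agent.Y455.Cong
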