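import Pool.Agent.Y455.Cong.Words

/-! Orientations of the Schreier graphs of an action of a free group with commutative
stabilizers. -/

set_option autoImplicit false

namespace Pool.Agent.Y455.Cong

open FreeGroup MulAction Filter

variable {α : Type*} [DecidableEq α] {X : Type*} [MulAction (FreeGroup α) X]

lemma exists_center (y : X)
    (hcomm : ∀ g h : FreeGroup α, g • y = y → h • y = y → g * h = h * g) :
    ∃ c : FreeGroup α, ∀ s : FreeGroup α, s • y = y → ∀ w : FreeGroup α,
      ∀ᶠ n : ℕ in atTop, hd (w * s * c ^ n) = hd (w * c ^ n) := by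
  by_cases h : ∃ c : FreeGroup α, c • y = y ∧ c ≠ 1
  · obtain ⟨c, hcy, hc⟩ := h
    exact ⟨c, fun s hs w => eventually_hd c s w hc (hcomm s c hs hcy)⟩
  · push Not at h
    refine ⟨1, fun s hs w => ?_⟩
    rw [h s hs]
    simp

/-- There is an orientation of the Schreier graphs such that every vertex is the tail of at most
one edge: `Hd x a` says that the first letter of the point `x` is `a`. -/
theorem exists_orientation
    (hcomm : ∀ (y : X) (g h : FreeGroup α), g • y = y → h • y = y → g * h = h * g) :
    ∃ Hd : X → α × Bool → Prop,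
      (∀ x a b, Hd x a → Hd x b → a = b) ∧
      (∀ x a, Hd (lt a • x) a ↔ ¬ Hd x (a.1, !a.2)) := by
  classical
  -- representatives
  let r : X → X := fun x => (Quotient.mk (MulAction.orbitRel (FreeGroup α) X) x).out
  have hr : ∀ x, ∃ w : FreeGroup α, w • r x = x := by
    intro x
    have h1 : (MulAction.orbitRel (FreeGroup α) X) (r x) x := Quotient.mk_out x
    rw [MulAction.orbitRel_apply] at h1
    obtain ⟨w, hw⟩ := h1
    exact ⟨w⁻¹, by rw [← hw]; simp⟩
  choose w hw using hr
  have hc := fun x : X => exists_center (r x) (hcomm (r x))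
  -- choose the centre depending only on the representative
  have hc' : ∀ y : X, ∃ c : FreeGroup α, ∀ s : FreeGroup α, s • y = y → ∀ w : FreeGroup α,
      ∀ᶠ n : ℕ in atTop, hd (w * s * c ^ n) = hd (w * c ^ n) := fun y => exists_center y (hcomm y)
  choose c hcs using hc'
  refine ⟨fun x a => ∀ᶠ n : ℕ in (hyperfilter ℕ : Filter ℕ), hd (w x * c (r x) ^ n) = some a,
    ?_, ?_⟩
  · intro x a b ha hb
    obtain ⟨n, hn1, hn2⟩ := (ha.and hb).exists
    rw [hn1] at hn2
    exact Option.some.inj hn2
  · intro x a
    have hrr : r (lt a • x) = r x := by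
      simp only [r]
      congr 1
      apply Quotient.sound
      change (MulAction.orbitRel (FreeGroup α) X) _ _
      rw [MulAction.orbitRel_apply]
      exact ⟨lt a, rfl⟩
    have hs : ((lt a * w x)⁻¹ * w (lt a • x)) • r x = r x := by
      rw [mul_smul, inv_smul_eq_iff, mul_smul, hw x]
      have := hw (lt a • x)
      rw [hrr] at this
      exact this
    have h1 := hcs (r x) _ hs (lt a * w x)
    have h2 : lt a * w x * ((lt a * w x)⁻¹ * w (lt a • x)) = w (lt a • x) := by group
    rw [h2] at h1
    have h3 : ∀ᶠ n : ℕ in (hyperfilter ℕ : Filter ℕ),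
        hd (w (lt a • x) * c (r x) ^ n) = hd (lt a * w x * c (r x) ^ n) :=
      h1.filter_mono (Nat.hyperfilter_le_atTop)
    beta_reduce
    rw [hrr]
    constructor
    · intro h
      rw [← Ultrafilter.eventually_not]
      filter_upwards [h, h3] with n hn1 hn2
      rw [hn2, mul_assoc] at hn1
      exact (hd_mul_iff a _).mp hn1
    · intro h
      rw [← Ultrafilter.eventually_not] at h
      filter_upwards [h, h3] with n hn1 hn2
      rw [hn2, mul_assoc]
      exact (hd_mul_iff a _).mpr hn1

end Pool.Agent.Y455.Cong
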