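import Pool.Agent.Y455.Cong.Orient
import Pool.Agent.Y455.Cong.Forest

/-! Solving a system of congruences for an action of a free group with commutative stabilizers
in which one basis element acts without periodic points. -/

set_option autoImplicit false

namespace Pool.Agent.Y455.Cong

open FreeGroup MulAction Filter

variable {V I X : Type*} [DecidableEq V] [MulAction (FreeGroup (Option V)) X]

/-- The distinguished generator. -/
abbrev TT (V : Type*) : FreeGroup (Option V) := FreeGroup.of none

/-- The other generators. -/
abbrev hh {V : Type*} (v : V) : FreeGroup (Option V) := FreeGroup.of (some v)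

lemma exists_const_choice (S : V → Set I) (i0 : I) (h0 : ∀ v, i0 ∉ S v)
    (hne : ∀ v, (S v).Nonempty) (hinj : ∀ v v', S v = S v' → v = v') (v v' : V) (hv : v ≠ v') :
    ∃ (J : Bool → I) (k : Bool), ∀ b, (J b ∈ S v' ↔ b = true) ∧ (J b ∈ S v ↔ k = true) := by
  by_cases h : ∃ i, i ∈ S v' ∧ i ∉ S v
  · obtain ⟨i, hi1, hi2⟩ := h
    refine ⟨fun b => if b then i else i0, false, ?_⟩
    rintro (_ | _)
    · simp [h0]
    · simp [hi1, hi2]
  · push Not at h
    have h1 : ∃ i, i ∈ S v ∧ i ∉ S v' := by
      by_contra hcon
      push Not at hcon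
      exact hv (hinj v v' (Set.Subset.antisymm hcon h))
    obtain ⟨i, hi1, hi2⟩ := h1
    obtain ⟨i', hi'⟩ := hne v'
    refine ⟨fun b => if b then i' else i, true, ?_⟩
    rintro (_ | _)
    · simp [hi1, hi2]
    · simp [hi', h i' hi']

theorem solve (S : V → Set I) (i0 : I) (h0 : ∀ v, i0 ∉ S v)
    (hne : ∀ v, (S v).Nonempty) (hinj : ∀ v v', S v = S v' → v = v')
    (hcomm : ∀ (y : X) (g h : FreeGroup (Option V)), g • y = y → h • y = y → g * h = h * g)
    (ht : ∀ (x : X) (n : ℕ), (TT V) ^ (n + 1) • x ≠ x) :
    ∃ (j : X → I) (B : X → Bool),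
      (∀ v z, (j (hh v • z) ∈ S v ↔ B z = true)) ∧ (∀ z, B (TT V • z) = !B z) := by
  classical
  obtain ⟨Hd, hU, hH⟩ := exists_orientation (X := X) (α := Option V) hcomm
  have H1 : ∀ v (z : X), Hd (hh v • z) (some v, true) ↔ ¬ Hd z (some v, false) := by
    intro v z
    exact hH z (some v, true)
  have H2 : ∀ (z : X), Hd (TT V • z) (none, true) ↔ ¬ Hd z (none, false) := by
    intro z
    exact hH z (none, true)
  have H3 : ∀ (z : X), Hd ((TT V)⁻¹ • z) (none, false) ↔ ¬ Hd z (none, true) := by
    intro z
    have := hH z (none, false)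
    have e : lt ((none : Option V), false) = (TT V)⁻¹ := by
      simp [lt, FreeGroup.of, FreeGroup.inv_mk, FreeGroup.invRev]
    rw [e] at this
    exact this
  -- the parent relation
  let ParT : X → X → Prop := fun z u =>
    (Hd z (none, true) ∧ u = (TT V)⁻¹ • z) ∨ (Hd z (none, false) ∧ u = TT V • z)
  let ParB : V → V → X → X → Prop := fun v v' z u =>
    Hd z (some v, false) ∧ Hd (hh v • z) (some v', true) ∧ u = (hh v')⁻¹ • hh v • z
  let Par : X → X → Prop := fun z u => ParT z u ∨ ∃ v v', ParB v v' z u
  have hTB : ∀ z u v v' u', ParT z u → ¬ ParB v v' z u' := by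
    rintro z u v v' u' (⟨h, -⟩ | ⟨h, -⟩) ⟨h', -, -⟩
    · simpa using hU _ _ _ h h'
    · simpa using hU _ _ _ h h'
  have hParuniq : ∀ z u u', Par z u → Par z u' → u = u' := by
    rintro z u u' (h | ⟨v, v', h⟩) (h' | ⟨w, w', h'⟩)
    · rcases h with ⟨h, rfl⟩ | ⟨h, rfl⟩ <;> rcases h' with ⟨h', rfl⟩ | ⟨h', rfl⟩
      · rfl
      · simpa using hU _ _ _ h h'
      · simpa using hU _ _ _ h h'
      · rfl
    · exact absurd h' (hTB _ _ _ _ _ h)
    · exact absurd h (hTB _ _ _ _ _ h')
    · obtain ⟨h1, h2, rfl⟩ := h
      obtain ⟨h1', h2', rfl⟩ := h'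
      have e1 := hU _ _ _ h1 h1'
      simp only [Prod.mk.injEq, Option.some.injEq, and_true] at e1
      subst e1
      have e2 := hU _ _ _ h2 h2'
      simp only [Prod.mk.injEq, Option.some.injEq, and_true] at e2
      subst e2
      rfl
  let q0 : X → Option X := fun z => if h : ∃ u, Par z u then some h.choose else none
  have hq0 : ∀ z u, q0 z = some u ↔ Par z u := by
    intro z u
    simp only [q0]
    by_cases h : ∃ u, Par z u
    · rw [dif_pos h]
      constructor
      · intro h'
        rw [← Option.some.inj h']
        exact h.choose_spec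
      · intro h'
        rw [hParuniq z _ _ h.choose_spec h']
    · rw [dif_neg h]
      constructor
      · intro h'
        exact absurd h' (by simp)
      · intro h'
        exact absurd ⟨u, h'⟩ h
  let Cyc : X → Prop := fun z => some z ∈ Function.periodicPts (step q0)
  let q : X → Option X := fun z =>
    if Cyc z ∧ (∃ v v' u, ParB v v' z u) then none else q0 z
  have hq_some : ∀ z u, q z = some u → q0 z = some u ∧ ¬ (Cyc z ∧ (∃ v v' u, ParB v v' z u)) := by
    intro z u h
    simp only [q] at h
    by_cases h' : Cyc z ∧ (∃ v v' u, ParB v v' z u)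
    · rw [if_pos h'] at h
      exact absurd h (by simp)
    · rw [if_neg h'] at h
      exact ⟨h, h'⟩
  -- acyclicity
  have hacyc : ∀ v n, (step q)^[n + 1] (some v) ≠ some v := by
    intro x n hx
    -- all iterates are `some`
    have hmul : ∀ k, (step q)^[k * (n + 1)] (some x) = some x := by
      intro k
      induction k with
      | zero => simp
      | succ k ih => rw [Nat.succ_mul, Function.iterate_add_apply, hx, ih]
    have hsome : ∀ k, ∃ y, (step q)^[k] (some x) = some y := by
      intro k
      cases hk : (step q)^[k] (some x) with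
      | some y => exact ⟨y, rfl⟩
      | none =>
        exfalso
        have h1 := hmul k
        have h2 : k * (n + 1) = (k * n) + k := by ring
        rw [h2, Function.iterate_add_apply, hk, step_iterate_none] at h1
        exact absurd h1 (by simp)
    choose y hy using hsome
    have hstep : ∀ k, q (y k) = some (y (k + 1)) := by
      intro k
      have h1 := hy (k + 1)
      rw [Function.iterate_succ_apply', hy k, step_some] at h1
      exact h1
    have hstep0 : ∀ k, q0 (y k) = some (y (k + 1)) := fun k => (hq_some _ _ (hstep k)).1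
    have hy0 : y 0 = x := by
      have := hy 0
      simpa using this.symm
    have hiter0 : ∀ m k, (step q0)^[m] (some (y k)) = some (y (k + m)) := by
      intro m
      induction m with
      | zero => intro k; rfl
      | succ m ih =>
        intro k
        rw [Function.iterate_succ_apply, step_some, hstep0 k, ih (k + 1)]
        congr 2
        ring
    have hper : ∀ k, y (k + (n + 1)) = y k := by
      intro k
      have h1 := hy (k + (n + 1))
      rw [Function.iterate_add_apply, hx, hy k] at h1
      exact (Option.some.inj h1).symm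
    have hcyc : ∀ k, Cyc (y k) := by
      intro k
      refine Function.mem_periodicPts.mpr ⟨n + 1, Nat.succ_pos n, ?_⟩
      rw [Function.IsPeriodicPt, Function.IsFixedPt, hiter0, hper]
    have hT : ∀ k, ParT (y k) (y (k + 1)) := by
      intro k
      rcases (hq0 _ _).mp (hstep0 k) with h | ⟨v, v', h⟩
      · exact h
      · exact absurd ⟨hcyc k, v, v', _, h⟩ (hq_some _ _ (hstep k)).2
    have hend : y (n + 1) = y 0 := by simpa using hper 0
    rcases hT 0 with ⟨h, h'⟩ | ⟨h, h'⟩
    · have hall : ∀ k, Hd (y k) (none, true) ∧ y (k + 1) = (TT V)⁻¹ • y k := by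
        intro k
        induction k with
        | zero => exact ⟨h, h'⟩
        | succ k ih =>
          have h1 : ¬ Hd (y (k + 1)) (none, false) := by
            rw [ih.2, H3]
            simpa using ih.1
          rcases hT (k + 1) with h2 | h2
          · exact h2
          · exact absurd h2.1 h1
      have hpow : ∀ k, (TT V) ^ k • y k = y 0 := by
        intro k
        induction k with
        | zero => simp
        | succ k ih =>
          rw [(hall k).2, pow_succ, mul_smul, smul_inv_smul, ih]
      have := hpow (n + 1)
      rw [hend] at this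
      exact ht _ n this
    · have hall : ∀ k, Hd (y k) (none, false) ∧ y (k + 1) = TT V • y k := by
        intro k
        induction k with
        | zero => exact ⟨h, h'⟩
        | succ k ih =>
          have h1 : ¬ Hd (y (k + 1)) (none, true) := by
            rw [ih.2, H2]
            simpa using ih.1
          rcases hT (k + 1) with h2 | h2
          · exact absurd h2.1 h1
          · exact h2
      have hpow : ∀ k, (TT V) ^ k • y 0 = y k := by
        intro k
        induction k with
        | zero => simp
        | succ k ih =>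
          rw [(hall k).2, pow_succ', mul_smul, ih]
      have := hpow (n + 1)
      rw [hend] at this
      exact ht _ n this
  -- constants
  have hconst : ∀ v v' : V, ∃ (J : Bool → I) (k : Bool), v ≠ v' →
      ∀ b, (J b ∈ S v' ↔ b = true) ∧ (J b ∈ S v ↔ k = true) := by
    intro v v'
    by_cases hv : v = v'
    · exact ⟨fun _ => i0, true, fun h => absurd hv h⟩
    · obtain ⟨J, k, h⟩ := exists_const_choice S i0 h0 hne hinj v v' hv
      exact ⟨J, k, fun _ => h⟩
  choose Jc kk hJc using hconst
  -- the choice functions
  have hJf : ∀ y : X, ∃ Jf : Bool → I,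
      (∀ v', Hd y (some v', true) → ∀ b, (Jf b ∈ S v' ↔ b = true)) ∧
      (∀ v' v, Hd y (some v', true) → Cyc ((hh v)⁻¹ • y) → Hd ((hh v)⁻¹ • y) (some v, false) →
        ∀ b, (Jf b ∈ S v ↔ kk v v' = true)) := by
    intro y
    by_cases hy : ∃ v', Hd y (some v', true)
    · obtain ⟨v', hv'⟩ := hy
      have huniq' : ∀ w, Hd y (some w, true) → w = v' := by
        intro w hw
        have := hU _ _ _ hw hv'
        simpa using this
      by_cases hv : ∃ v, Cyc ((hh v)⁻¹ • y) ∧ Hd ((hh v)⁻¹ • y) (some v, false)
      · obtain ⟨v, hv1, hv2⟩ := hv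
        have hvv' : v ≠ v' := by
          rintro rfl
          have h1 := (H1 v ((hh v)⁻¹ • y)).mp (by rw [smul_inv_smul]; exact hv')
          exact h1 hv2
        refine ⟨Jc v v', ?_, ?_⟩
        · intro w hw b
          rw [huniq' w hw]
          exact (hJc v v' hvv' b).1
        · intro w u hw hu1 hu2 b
          rw [huniq' w hw]
          -- uniqueness of the cyclic child
          have e1 : q0 ((hh v)⁻¹ • y) = some ((hh v')⁻¹ • y) := by
            rw [hq0]
            refine Or.inr ⟨v, v', hv2, ?_, ?_⟩
            · rw [smul_inv_smul]; exact hv'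
            · rw [smul_inv_smul]
          have e2 : q0 ((hh u)⁻¹ • y) = some ((hh v')⁻¹ • y) := by
            rw [hq0]
            refine Or.inr ⟨u, v', hu2, ?_, ?_⟩
            · rw [smul_inv_smul]; exact hv'
            · rw [smul_inv_smul]
          have e3 : step q0 (some ((hh v)⁻¹ • y)) = step q0 (some ((hh u)⁻¹ • y)) := by
            rw [step_some, step_some, e1, e2]
          have e4 := (Function.bijOn_periodicPts (step q0)).injOn hv1 hu1 e3
          have e5 := Option.some.inj e4
          rw [← e5] at hu2
          have e6 := hU _ _ _ hv2 hu2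
          simp only [Prod.mk.injEq, Option.some.injEq, and_true] at e6
          rw [← e6]
          exact (hJc v v' hvv' b).2
      · push Not at hv
        obtain ⟨i, hi⟩ := hne v'
        refine ⟨fun b => if b then i else i0, ?_, ?_⟩
        · intro w hw b
          rw [huniq' w hw]
          cases b
          · simp [h0]
          · simp [hi]
        · intro w u hw hu1 hu2
          exact absurd hu2 (hv u hu1)
    · push Not at hy
      exact ⟨fun _ => i0, fun v' hv' => absurd hv' (hy v'), fun v' v hv' => absurd hv' (hy v')⟩
  choose Jf hJf1 hJf2 using hJf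
  -- the equations
  have hG : ∀ z : X, ∃ G : Bool → Bool,
      (∀ u, ParT z u → ∀ b, G b = !b) ∧
      (∀ v v' u, ParB v v' z u → ∀ b, (G b = true ↔ Jf (hh v • z) b ∈ S v)) := by
    intro z
    by_cases hz : ∃ v, Hd z (some v, false)
    · obtain ⟨v, hv⟩ := hz
      refine ⟨fun b => decide (Jf (hh v • z) b ∈ S v), ?_, ?_⟩
      · rintro u (⟨h, -⟩ | ⟨h, -⟩)
        · simpa using hU _ _ _ h hv
        · simpa using hU _ _ _ h hv
      · rintro w w' u ⟨h, -, -⟩ b
        have e := hU _ _ _ h hv
        simp only [Prod.mk.injEq, Option.some.injEq, and_true] at e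
        subst e
        simp
    · push Not at hz
      exact ⟨fun b => !b, fun _ _ _ => rfl, fun v v' u h => absurd h.1 (hz v)⟩
  choose G hG1 hG2 using hG
  have hc : ∀ z : X, ∃ c : Bool,
      (∀ v v' u, ParB v v' z u → c = kk v v') ∧ ((∀ v v' u, ¬ ParB v v' z u) → c = false) := by
    intro z
    by_cases hz : ∃ v v' u, ParB v v' z u
    · obtain ⟨v, v', u, h⟩ := hz
      refine ⟨kk v v', ?_, fun h' => absurd h (h' v v' u)⟩
      rintro w w' u' ⟨h1, h2, -⟩
      obtain ⟨h1', h2', -⟩ := h
      have e := hU _ _ _ h1 h1'
      simp only [Prod.mk.injEq, Option.some.injEq, and_true] at e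
      subst e
      have e := hU _ _ _ h2 h2'
      simp only [Prod.mk.injEq, Option.some.injEq, and_true] at e
      subst e
      rfl
    · push Not at hz
      exact ⟨false, fun v v' u h => absurd h (hz v v' u), fun _ => rfl⟩
  choose c hc1 hc2 using hc
  obtain ⟨B, hB⟩ := exists_coloring q hacyc G c
  have hj : ∀ y : X, ∃ i : I,
      (∀ v', Hd y (some v', true) → i = Jf y (B ((hh v')⁻¹ • y))) ∧
      ((∀ v', ¬ Hd y (some v', true)) → i = i0) := by
    intro y
    by_cases hy : ∃ v', Hd y (some v', true)
    · obtain ⟨v', hv'⟩ := hy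
      refine ⟨Jf y (B ((hh v')⁻¹ • y)), ?_, fun h => absurd hv' (h v')⟩
      intro w hw
      have e := hU _ _ _ hw hv'
      simp only [Prod.mk.injEq, Option.some.injEq, and_true] at e
      rw [e]
    · push Not at hy
      exact ⟨i0, fun v' h => absurd h (hy v'), fun _ => rfl⟩
  choose j hj1 hj2 using hj
  refine ⟨j, B, ?_, ?_⟩
  · intro v z
    by_cases hz : Hd z (some v, false)
    · by_cases hy : ∃ v', Hd (hh v • z) (some v', true)
      · obtain ⟨v', hv'⟩ := hy
        rw [hj1 _ v' hv']
        have hpb : ParB v v' z ((hh v')⁻¹ • hh v • z) := ⟨hz, hv', rfl⟩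
        by_cases hcy : Cyc z
        · have hqn : q z = none := by
            simp only [q]
            rw [if_pos ⟨hcy, v, v', _, hpb⟩]
          rw [(hB z).1 hqn, hc1 z v v' _ hpb]
          refine hJf2 (hh v • z) v' v hv' ?_ ?_ _
          · rw [inv_smul_smul]; exact hcy
          · rw [inv_smul_smul]; exact hz
        · have hqs : q z = some ((hh v')⁻¹ • hh v • z) := by
            simp only [q]
            rw [if_neg (fun h => hcy h.1), hq0]
            exact Or.inr ⟨v, v', hpb⟩
          rw [(hB z).2 _ hqs]
          exact (hG2 z v v' _ hpb _).symm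
      · push Not at hy
        rw [hj2 _ hy]
        have hnb : ∀ w w' u, ¬ ParB w w' z u := by
          rintro w w' u ⟨h1, h2, -⟩
          have e := hU _ _ _ h1 hz
          simp only [Prod.mk.injEq, Option.some.injEq, and_true] at e
          subst e
          exact hy _ h2
        have hq0n : q0 z = none := by
          cases hq0z : q0 z with
          | none => rfl
          | some u =>
            rcases (hq0 _ _).mp hq0z with h | ⟨w, w', h⟩
            · rcases h with ⟨h, -⟩ | ⟨h, -⟩
              · simpa using hU _ _ _ h hz
              · simpa using hU _ _ _ h hz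
            · exact absurd h (hnb _ _ _)
        have hqn : q z = none := by
          simp only [q]
          rw [hq0n]
          simp
        rw [(hB z).1 hqn, hc2 z hnb]
        simp [h0]
    · have hy : Hd (hh v • z) (some v, true) := (H1 v z).mpr hz
      rw [hj1 _ v hy, inv_smul_smul]
      exact hJf1 _ v hy _
  · have hmain : ∀ z u, ParT z u → B z = !B u := by
      intro z u h
      have hqs : q z = some u := by
        simp only [q]
        rw [if_neg, hq0]
        · exact Or.inl h
        · rintro ⟨-, v, v', u', h'⟩
          exact hTB _ _ _ _ _ h h'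
      rw [(hB z).2 _ hqs]
      exact hG1 z u h _
    intro z
    by_cases hz : Hd z (none, false)
    · have := hmain z (TT V • z) (Or.inr ⟨hz, rfl⟩)
      rw [this]; simp
    · have hy := (H2 z).mpr hz
      have := hmain (TT V • z) z (Or.inl ⟨hy, by rw [inv_smul_smul]⟩)
      exact this

end Pool.Agent.Y455.Cong
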