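import Mathlib

/-! The first letter of a reduced word. -/

set_option autoImplicit false

namespace Pool.Agent.Y455.Cong

open FreeGroup

variable {α : Type*} [DecidableEq α]

/-- The first letter of the reduced word of an element of a free group. -/
def hd (w : FreeGroup α) : Option (α × Bool) := w.toWord.head?

/-- The group element of a letter. -/
def lt (a : α × Bool) : FreeGroup α := FreeGroup.mk [a]

lemma hd_mul_iff (a : α × Bool) (w : FreeGroup α) :
    hd (lt a * w) = some a ↔ ¬ hd w = some (a.1, !a.2) := by
  unfold hd lt
  rw [FreeGroup.toWord_mul]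
  have h1 : (FreeGroup.mk [a]).toWord = [a] := by
    rw [FreeGroup.toWord_mk, FreeGroup.reduce_singleton]
  rw [h1]
  have hred : FreeGroup.reduce w.toWord = w.toWord := FreeGroup.reduce_toWord w
  change (FreeGroup.reduce (a :: w.toWord)).head? = some a ↔ _
  rw [FreeGroup.reduce.cons, hred]
  have hr : FreeGroup.IsReduced w.toWord := FreeGroup.isReduced_toWord
  cases hL : w.toWord with
  | nil => simp
  | cons b tl =>
    simp only
    rw [hL] at hr
    by_cases hc : a.1 = b.1 ∧ a.2 = !b.2
    · rw [if_pos hc]
      have hb : b = (a.1, !a.2) := by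
        ext
        · exact hc.1.symm
        · simp [hc.2]
      constructor
      · intro h h'
        cases tl with
        | nil => simp at h
        | cons e tl =>
          simp only [List.head?_cons, Option.some.injEq] at h
          subst h
          rw [FreeGroup.IsReduced, List.isChain_cons_cons] at hr
          have := hr.1 (by rw [hb])
          rw [hb] at this
          simp at this
      · intro h
        exact absurd (by simp [hb]) h
    · rw [if_neg hc]
      simp only [List.head?_cons, Option.some.injEq, true_iff]
      intro h
      apply hc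
      rw [h]
      simp

lemma norm_inv_mul_of_hd_ne (u v : FreeGroup α) (h : hd u ≠ hd v) :
    (u⁻¹ * v).norm = u.norm + v.norm := by
  unfold FreeGroup.norm
  rw [FreeGroup.toWord_mul, FreeGroup.toWord_inv]
  have hr : FreeGroup.IsReduced (invRev u.toWord ++ v.toWord) := by
    rw [FreeGroup.IsReduced, List.isChain_append]
    refine ⟨?_, FreeGroup.isReduced_toWord, ?_⟩
    · rw [← FreeGroup.toWord_inv]
      exact FreeGroup.isReduced_toWord
    · intro x hx y hy hxy
      have hx' : (invRev u.toWord).getLast? = some x := hx
      have hy' : v.toWord.head? = some y := hy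
      have h1 : u.toWord.head? = some (x.1, !x.2) := by
        unfold FreeGroup.invRev at hx'
        rw [List.getLast?_reverse, List.head?_map] at hx'
        cases hu : u.toWord.head? with
        | none => rw [hu] at hx'; simp at hx'
        | some z =>
          rw [hu] at hx'
          simp only [Option.map_some, Option.some.injEq] at hx'
          rw [← hx']
          simp
      by_contra hne
      apply h
      unfold hd
      rw [h1, hy']
      congr 1
      ext
      · exact hxy
      · revert hne
        cases x.2 <;> cases y.2 <;> simp
  rw [hr.reduce_eq, List.length_append, FreeGroup.invRev_length]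

lemma le_norm_pow (c : FreeGroup α) (hc : c ≠ 1) (n : ℕ) : n ≤ (c ^ n).norm := by
  unfold FreeGroup.norm
  rw [FreeGroup.toWord_pow, FreeGroup.reduceCyclically.reduce_flatten_replicate FreeGroup.isReduced_toWord]
  by_cases hn : n = 0
  · simp [hn]
  rw [if_neg hn]
  have hd1 : FreeGroup.reduceCyclically c.toWord ≠ [] := by
    intro h
    have h2 := FreeGroup.reduceCyclically.conj_conjugator_reduceCyclically c.toWord
    rw [h, List.append_nil] at h2
    apply hc
    have h3 : FreeGroup.mk c.toWord = 1 := by
      rw [← h2, ← FreeGroup.mul_mk, ← FreeGroup.inv_mk]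
      exact mul_inv_cancel _
    rwa [FreeGroup.mk_toWord] at h3
  have hlen : 1 ≤ (FreeGroup.reduceCyclically c.toWord).length :=
    List.length_pos_iff.mpr hd1
  simp only [List.length_append, List.length_flatten, List.map_replicate, List.sum_replicate,
    smul_eq_mul]
  nlinarith

/-- Heads of `w s cⁿ` and `w cⁿ` agree for large `n` if `s` commutes with `c ≠ 1`. -/
lemma eventually_hd (c s w : FreeGroup α) (hc : c ≠ 1) (hs : s * c = c * s) :
    ∀ᶠ n : ℕ in Filter.atTop, hd (w * s * c ^ n) = hd (w * c ^ n) := by
  filter_upwards [Filter.eventually_gt_atTop (w.norm + s.norm)] with n hn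
  by_contra hne
  have h1 := norm_inv_mul_of_hd_ne _ _ (Ne.symm hne)
  have hcomm : s * c ^ n = c ^ n * s := by
    have : Commute s c := hs
    exact (this.pow_right n)
  have h2 : (w * c ^ n)⁻¹ * (w * s * c ^ n) = s := by
    rw [mul_assoc w s, hcomm]
    group
  rw [h2] at h1
  have h3 := le_norm_pow c hc n
  have h4 : (c ^ n).norm ≤ w.norm + (w * c ^ n).norm := by
    calc (c ^ n).norm = (w⁻¹ * (w * c ^ n)).norm := by group
      _ ≤ w⁻¹.norm + (w * c ^ n).norm := FreeGroup.norm_mul_le _ _
      _ = w.norm + (w * c ^ n).norm := by rw [FreeGroup.norm_inv_eq]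
  omega

end Pool.Agent.Y455.Cong
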